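import Pool.Agent.helper24.BR.SpecA

/-!
# Project BR (MP_baa4d7_al), row ABS: comparison of the sums over the tuples
-/

set_option autoImplicit false

namespace Pool.Agent.BR

open Pool.Agent.helper58.DC Pool.Agent.DI Pool.Agent.GR Pool.Agent.OB Pool.Agent.DR Pool.Agent.FI Pool.Agent.FI3 Pool.Agent.FI4 Pool.Agent.LE

open Classical in
theorem ABS_fs {α : Type} [Fintype α] (P : α → Prop) (f : α → ℂ) : ∑ᶠ t ∈ {t | P t}, f t = ∑ t ∈ Finset.univ.filter P, f t := by
  rw [← finsum_mem_coe_finset]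
  have h : ((Finset.univ.filter P : Finset α) : Set α) = {t | P t} := by
    ext t
    simp
  rw [h]

open Classical in
/-- the sum over the tuples of the centraliser of `S'` -/
theorem ABS_in {G : Type} [Group G] [Fintype G] (M : Ideal (integralClosure ℤ ℂ)) (D S₁ S' : Subgroup G) (θ : G → ℂ) (l : D →* ℂˣ)
    (hf : (BB M (cz S₁)).Finite) (u g : G) (ψ : G → ℂ) (q : ℕ) :
    ∑ t ∈ Finset.univ.filter (fun t : Fin q → G => ∀ i, t i ∈ cz S'), Wt M D θ l S₁ u t * ψ (g * (List.ofFn t).prod) =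
      ∑ᶠ e ∈ BB M (cz S₁), Lam M D θ l u (rep M (cz S₁) e) * ev ψ (cvp (rsk (cz S') e) q) g := by
  rw [finsum_mem_eq_finite_toFinset_sum _ hf]
  have h1 : ∀ t : Fin q → G, Wt M D θ l S₁ u t = ∑ e ∈ hf.toFinset, Lam M D θ l u (rep M (cz S₁) e) * ∏ i, e (t i) := by
    intro t
    unfold Wt
    rw [finsum_mem_eq_finite_toFinset_sum _ hf]
  calc ∑ t ∈ Finset.univ.filter (fun t : Fin q → G => ∀ i, t i ∈ cz S'), Wt M D θ l S₁ u t * ψ (g * (List.ofFn t).prod)
      = ∑ t ∈ Finset.univ.filter (fun t : Fin q → G => ∀ i, t i ∈ cz S'), ∑ e ∈ hf.toFinset,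
          Lam M D θ l u (rep M (cz S₁) e) * ((∏ i, e (t i)) * ψ (g * (List.ofFn t).prod)) := by
        refine Finset.sum_congr rfl fun t _ => ?_
        rw [h1 t, Finset.sum_mul]
        refine Finset.sum_congr rfl fun e _ => ?_
        rw [mul_assoc]
    _ = ∑ e ∈ hf.toFinset, ∑ t ∈ Finset.univ.filter (fun t : Fin q → G => ∀ i, t i ∈ cz S'),
          Lam M D θ l u (rep M (cz S₁) e) * ((∏ i, e (t i)) * ψ (g * (List.ofFn t).prod)) := Finset.sum_comm
    _ = _ := by
        refine Finset.sum_congr rfl fun e _ => ?_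
        rw [← Finset.mul_sum, TUF, finsum_eq_sum_of_fintype, Finset.sum_filter]
        congr 1
        refine Finset.sum_congr rfl fun t _ => ?_
        by_cases ht : ∀ i, t i ∈ cz S'
        · rw [if_pos ht]
          congr 1
          refine Finset.prod_congr rfl fun i _ => ?_
          unfold rsk
          rw [if_pos (ht i)]
        · rw [if_neg ht]
          push Not at ht
          obtain ⟨i, hi⟩ := ht
          have h2 : rsk (cz S') e (t i) = 0 := by
            unfold rsk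
            rw [if_neg hi]
          rw [Finset.prod_eq_zero (Finset.mem_univ i) h2, zero_mul]

theorem ABS_pow {G : Type} [Group G] (A : Subgroup G) (k : G → ℂ) (hk : LC A k) (u : G) (hu : u ∈ A) (n : ℕ) : k (u ^ n) = k u ^ n := by
  induction n with
  | zero => rw [pow_zero, pow_zero, hk.1]
  | succ n ih => rw [pow_succ, pow_succ, hk.2 _ (A.pow_mem hu n) _ hu, ih]

theorem ABS_int {G : Type} [Group G] [Finite G] {p : ℕ} {M : Ideal (integralClosure ℤ ℂ)} (hM : Setup p M) (A : Subgroup G) (k : G → ℂ) (hk : LC A k)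
    (u : G) (hu : u ∈ A) : IntAt M (k u) := by
  refine IntAt.of_isIntegral hM ?_
  refine IsIntegral.of_pow (orderOf_pos u) ?_
  rw [← ABS_pow A k hk u hu, pow_orderOf_eq_one, hk.1]
  exact isIntegral_one

theorem ABS_st {G : Type} [Group G] (A S' : Subgroup G) (hS : S' ≤ A) {q : ℕ} (t : Fin q → G) : S' ≤ st A t ↔ ∀ i, t i ∈ cz S' := by
  constructor
  · intro h i
    rw [Subgroup.mem_centralizer_iff]
    intro s hs
    have h1 := (h hs).2
    exact ((Subgroup.mem_centralizer_iff.1 h1) (t i) ⟨i, rfl⟩).symm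
  · intro h s hs
    have h2 : s ∈ Subgroup.centralizer (Set.range t) := by
      rw [Subgroup.mem_centralizer_iff]
      rintro _ ⟨i, rfl⟩
      exact ((Subgroup.mem_centralizer_iff.1 (h i)) s hs).symm
    exact ⟨hS hs, h2⟩

theorem ABS (hUPR : UPR_stmt) (hREP : REP_stmt) : ABS_stmt := by
  classical
  intro p M hM G _ _ D x θ χ h l ψ hψ A hA com w hw k hk S hSA r
  let _ : Fintype G := Fintype.ofFinite G
  let _ : Fintype (Subgroup G) := Fintype.ofFinite (Subgroup G)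
  have hBB : ∀ K, (BB M K).Finite := fun K => (hREP p M hM G K).1
  have h1 : ∀ (S' : Subgroup G) (u : G), ∃ N₀ : ℕ, ∀ N ≥ N₀, S ≤ S' → S' ≤ A → u ∈ S → ∀ g : G,
      Small p M r (∑ᶠ e ∈ BB M (cz (Subgroup.zpowers u)), Lam M D θ l u (rep M (cz (Subgroup.zpowers u)) e) * ev ψ (cvp (rsk (cz S') e) (p ^ N)) g -
        ∑ᶠ η' ∈ IrrOn (cz S'), Lam M D θ l u η' * ev ψ (eS (cz S') {η'}) g) ∧
      Small p M r (∑ᶠ e ∈ BB M (cz S), Lam M D θ l u (rep M (cz S) e) * ev ψ (cvp (rsk (cz S') e) (p ^ N)) g -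
        ∑ᶠ η' ∈ IrrOn (cz S'), Lam M D θ l u η' * ev ψ (eS (cz S') {η'}) g) := by
    intro S' u
    by_cases hc : S ≤ S' ∧ S' ≤ A ∧ u ∈ S
    · obtain ⟨c1, c2, c3⟩ := hc
      have hp : IsPGroup p S' := hA.to_le c2
      have hab : ∀ a ∈ S', ∀ b ∈ S', a * b = b * a := fun a ha b hb => com a (c2 ha) b (c2 hb)
      obtain ⟨N1, hN1⟩ := hUPR p M hM G D x θ χ h l ψ hψ (Subgroup.zpowers u) S' ((Subgroup.zpowers_le).2 (c1 c3)) hp hab r
      obtain ⟨N2, hN2⟩ := hUPR p M hM G D x θ χ h l ψ hψ S S' c1 hp hab r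
      exact ⟨max N1 N2, fun N hN _ _ _ g => ⟨hN1 N ((le_max_left _ _).trans hN) u (Subgroup.mem_zpowers u) g,
        hN2 N ((le_max_right _ _).trans hN) u c3 g⟩⟩
    · exact ⟨0, fun N _ c1 c2 c3 => absurd ⟨c1, c2, c3⟩ hc⟩
  choose N0 hN0 using h1
  refine ⟨Finset.univ.sup (fun q : Subgroup G × G => N0 q.1 q.2), fun N hN => ?_⟩
  have hN' : ∀ (S' : Subgroup G) (u : G), N0 S' u ≤ N := fun S' u =>
    (Finset.le_sup (f := fun q : Subgroup G × G => N0 q.1 q.2) (Finset.mem_univ (S', u))).trans hN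
  let Φ : (Fin (p ^ N) → G) → ℂ := fun t => ∑ u ∈ Finset.univ.filter (fun u : G => u ∈ S),
    (k u * Wt M D θ l (Subgroup.zpowers u) u t * ψ (u * w * (List.ofFn t).prod) - k u * Wt M D θ l S u t * ψ (u * w * (List.ofFn t).prod))
  have hgoal : (∑ᶠ t ∈ {t : Fin (p ^ N) → G | st A t = S}, ∑ᶠ u ∈ (S : Set G), k u * Wt M D θ l (Subgroup.zpowers u) u t *
        ψ (u * w * (List.ofFn t).prod)) -
      ∑ᶠ t ∈ {t : Fin (p ^ N) → G | st A t = S}, ∑ᶠ u ∈ (S : Set G), k u * Wt M D θ l S u t * ψ (u * w * (List.ofFn t).prod) =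
      ∑ t ∈ Finset.univ.filter (fun t : Fin (p ^ N) → G => st A t = S), Φ t := by
    rw [ABS_fs, ABS_fs, ← Finset.sum_sub_distrib]
    refine Finset.sum_congr rfl fun t _ => ?_
    have e1 := ABS_fs (fun u : G => u ∈ S) (fun u => k u * Wt M D θ l (Subgroup.zpowers u) u t * ψ (u * w * (List.ofFn t).prod))
    have e2 := ABS_fs (fun u : G => u ∈ S) (fun u => k u * Wt M D θ l S u t * ψ (u * w * (List.ofFn t).prod))
    have e3 : ({u : G | u ∈ S} : Set G) = (S : Set G) := rfl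
    rw [e3] at e1 e2
    rw [e1, e2, ← Finset.sum_sub_distrib]
  rw [hgoal]
  refine UPS hM (fun S'' : Subgroup G => ∑ t ∈ Finset.univ.filter (fun t : Fin (p ^ N) → G => st A t = S''), Φ t) r S ?_ S le_rfl
  intro S' hS'
  have hsum : ∑ S'' ∈ Finset.univ.filter (fun S'' : Subgroup G => S' ≤ S''), ∑ t ∈ Finset.univ.filter (fun t : Fin (p ^ N) → G => st A t = S''), Φ t =
      ∑ t ∈ Finset.univ.filter (fun t : Fin (p ^ N) → G => S' ≤ st A t), Φ t := by
    have e1 := Finset.sum_fiberwise_of_maps_to (s := Finset.univ.filter (fun t : Fin (p ^ N) → G => S' ≤ st A t))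
      (t := Finset.univ.filter (fun S'' : Subgroup G => S' ≤ S'')) (g := fun t => st A t) (fun t ht => by
        rw [Finset.mem_filter] at ht ⊢
        exact ⟨Finset.mem_univ _, ht.2⟩) Φ
    rw [← e1]
    refine Finset.sum_congr rfl fun S'' hS'' => ?_
    rw [Finset.mem_filter] at hS''
    refine Finset.sum_congr ?_ fun _ _ => rfl
    ext t
    simp only [Finset.mem_filter, Finset.mem_univ, true_and]
    exact ⟨fun ht => ⟨by rw [ht]; exact hS''.2, ht⟩, fun ht => ht.2⟩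
  rw [hsum]
  by_cases hSA' : S' ≤ A
  · have hfil : Finset.univ.filter (fun t : Fin (p ^ N) → G => S' ≤ st A t) = Finset.univ.filter (fun t : Fin (p ^ N) → G => ∀ i, t i ∈ cz S') := by
      refine Finset.filter_congr fun t _ => ?_
      exact ABS_st A S' hSA' t
    rw [hfil, Finset.sum_comm]
    refine Small.sum hM _ fun u hu => ?_
    have huS : u ∈ S := (Finset.mem_filter.1 hu).2
    obtain ⟨g1, g2⟩ := hN0 S' u N (hN' S' u) hS' hSA' huS (u * w)
    have e2 : ∑ t ∈ Finset.univ.filter (fun t : Fin (p ^ N) → G => ∀ i, t i ∈ cz S'),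
        (k u * Wt M D θ l (Subgroup.zpowers u) u t * ψ (u * w * (List.ofFn t).prod) - k u * Wt M D θ l S u t * ψ (u * w * (List.ofFn t).prod)) =
        k u * ((∑ᶠ e ∈ BB M (cz (Subgroup.zpowers u)), Lam M D θ l u (rep M (cz (Subgroup.zpowers u)) e) * ev ψ (cvp (rsk (cz S') e) (p ^ N)) (u * w) -
        ∑ᶠ η' ∈ IrrOn (cz S'), Lam M D θ l u η' * ev ψ (eS (cz S') {η'}) (u * w)) -
        (∑ᶠ e ∈ BB M (cz S), Lam M D θ l u (rep M (cz S) e) * ev ψ (cvp (rsk (cz S') e) (p ^ N)) (u * w) -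
        ∑ᶠ η' ∈ IrrOn (cz S'), Lam M D θ l u η' * ev ψ (eS (cz S') {η'}) (u * w))) := by
      rw [sub_sub_sub_cancel_right, ← ABS_in M D (Subgroup.zpowers u) S' θ l (hBB _) u (u * w) ψ (p ^ N),
        ← ABS_in M D S S' θ l (hBB _) u (u * w) ψ (p ^ N), Finset.sum_sub_distrib, mul_sub, Finset.mul_sum, Finset.mul_sum]
      simp only [mul_assoc]
    rw [e2]
    exact Small.mul_left hM (ABS_int hM A k hk u (hSA huS)) (Small.sub hM g1 g2)
  · have hfil : Finset.univ.filter (fun t : Fin (p ^ N) → G => S' ≤ st A t) = ∅ := by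
      refine Finset.filter_eq_empty_iff.2 fun t _ ht => hSA' ?_
      exact ht.trans inf_le_left
    rw [hfil, Finset.sum_empty]
    exact Small.zero' hM r

end Pool.Agent.BR
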