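import Pool.Agent.helper45.BR.Spec

/-!
# br:INJ : a component of the interior of the filled Julia set without `0` is mapped injectively
-/

set_option autoImplicit false

open Complex Metric Set Filter Topology MeasureTheory MPS Pool.Agent.helper98.ILF
  Pool.Agent.helper16.Multibrot

noncomputable section

namespace BR

theorem INJ (hBAS : BAS_stmt) (hCMP : CMP_stmt) (hHUL : HUL_stmt) (hLGH : LGH_stmt) : INJ_stmt := by
  intro n c U hn hc hU h0 x hx y hy hxy
  obtain ⟨-, -, -, -, hrot⟩ := hBAS n c hn hc
  obtain ⟨hUo, hUc, hUW, -, hmax, -, -, -⟩ := hCMP n c U hn hc hU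
  have hNH := hHUL n c U hn hc hU
  have hx0 : x ≠ 0 := fun h => h0 (h ▸ hx)
  have hxn : x ^ n = y ^ n := by
    have h1 : x ^ n + c = y ^ n + c := hxy
    exact add_right_cancel h1
  set ω : ℂ := y / x with hω
  have hωx : ω * x = y := by rw [hω]; field_simp
  have hωn : ω ^ n = 1 := by
    rw [hω, div_pow, ← hxn, div_self (pow_ne_zero n hx0)]
  have hmaps : ∀ z ∈ U, ω * z ∈ U := by
    have hS : (fun z => ω * z) '' U ⊆ U := by
      apply hmax
      · rintro _ ⟨z, hz, rfl⟩
        exact hrot z ω hωn (hUW hz)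
      · exact hUc.isPreconnected.image _ (by fun_prop)
      · exact ⟨y, ⟨x, hx, hωx⟩, hy⟩
    intro z hz
    exact hS ⟨z, hz, rfl⟩
  obtain ⟨l, hl, hexp⟩ := hLGH U (fun z => z) hUo hUc hNH differentiableOn_id
    (fun z hz h => h0 (h ▸ hz))
  have hldiff : ∀ z ∈ U, DifferentiableAt ℂ l z := fun z hz => (hl z hz).differentiableAt (hUo.mem_nhds hz)
  have hω0 : ω ≠ 0 := by
    intro h
    rw [h, zero_pow (by omega)] at hωn
    exact zero_ne_one hωn
  let g : ℂ → ℂ := fun z => l (ω * z) - l z
  have hgdiff : ∀ z ∈ U, DifferentiableAt ℂ g z := by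
    intro z hz
    have h1 : DifferentiableAt ℂ (fun z => l (ω * z)) z :=
      DifferentiableAt.comp z (hldiff _ (hmaps z hz)) (by fun_prop)
    exact h1.sub (hldiff z hz)
  have hgexp : ∀ z ∈ U, Complex.exp (g z) = ω := by
    intro z hz
    have hz0 : z ≠ 0 := fun h => h0 (h ▸ hz)
    have h1 := hexp z hz
    have h2 := hexp (ω * z) (hmaps z hz)
    have h1 : Complex.exp (l z) = z := h1
    have h2 : Complex.exp (l (ω * z)) = ω * z := h2
    show Complex.exp (l (ω * z) - l z) = ω
    rw [Complex.exp_sub, h1, h2]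
    field_simp
  have hgder : EqOn (deriv g) 0 U := by
    intro z hz
    have h1 : HasDerivAt (fun w => Complex.exp (g w)) (Complex.exp (g z) * deriv g z) z :=
      (hgdiff z hz).hasDerivAt.cexp
    have h2 : HasDerivAt (fun w => Complex.exp (g w)) 0 z := by
      have : (fun w => Complex.exp (g w)) =ᶠ[𝓝 z] fun _ => ω := by
        filter_upwards [hUo.mem_nhds hz] with w hw using hgexp w hw
      exact (hasDerivAt_const z ω).congr_of_eventuallyEq this
    have h3 := h1.unique h2
    rcases mul_eq_zero.mp h3 with h | h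
    · exact absurd h (Complex.exp_ne_zero _)
    · simpa using h
  have hconst : ∀ z ∈ U, g z = g x := by
    intro z hz
    exact hUo.is_const_of_deriv_eq_zero hUc.isPreconnected
      (fun w hw => (hgdiff w hw).differentiableWithinAt) hgder hz hx
  have hiter : ∀ k : ℕ, ω ^ k * x ∈ U ∧ l (ω ^ k * x) = l x + k * g x := by
    intro k
    induction k with
    | zero => simp [hx]
    | succ k ih =>
      obtain ⟨ih1, ih2⟩ := ih
      have h1 : ω ^ (k + 1) * x = ω * (ω ^ k * x) := by ring
      rw [h1]
      refine ⟨hmaps _ ih1, ?_⟩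
      have h2 := hconst _ ih1
      have h3 : l (ω * (ω ^ k * x)) = g (ω ^ k * x) + l (ω ^ k * x) := by
        simp only [g]; ring
      rw [h3, h2, ih2]
      push_cast
      ring
  have h4 := (hiter n).2
  rw [hωn, one_mul] at h4
  have h5 : (n : ℂ) * g x = 0 := by linear_combination -h4
  have hnc : (n : ℂ) ≠ 0 := by
    have : n ≠ 0 := by omega
    exact_mod_cast this
  have h6 : g x = 0 := by
    rcases mul_eq_zero.mp h5 with h | h
    · exact absurd h hnc
    · exact h
  have h7 : ω = 1 := by
    have := hgexp x hx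
    rw [h6, Complex.exp_zero] at this
    exact this.symm
  rw [← hωx, h7, one_mul]

end BR
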